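import Mathlib

/-!
A map `f` of prime order `p` on a finite set: sums over the set and over the fixed points.
-/

set_option autoImplicit false
set_option linter.unusedSectionVars false

namespace Pool.Agent.N829.TV

open Finset Function

variable {X V : Type*} [DecidableEq X] [AddCommGroup V] {p : ℕ} [hp : Fact p.Prime]

theorem iterate_mem {f : X → X} {s : Finset X} (hf : ∀ x ∈ s, f x ∈ s) {x : X} (hx : x ∈ s)
    (n : ℕ) : f^[n] x ∈ s := by
  induction n with
  | zero => exact hx
  | succ n ih => rw [iterate_succ_apply']; exact hf _ ih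

/-- If the sums of `φ` over all orbits `x, f x, ..., f ^ (p - 1) x` are in `B`, then the sum of `φ` over
`s` is congruent modulo `B` to the sum over the fixed points. -/
theorem sum_sub_sum_fixed (B : AddSubgroup V) (f : X → X) (φ : X → V) (s : Finset X)
    (hf : ∀ x ∈ s, f x ∈ s) (hper : ∀ x ∈ s, f^[p] x = x)
    (hφ : ∀ x ∈ s, ∑ i ∈ range p, φ (f^[i] x) ∈ B) :
    ∑ x ∈ s, φ x - ∑ x ∈ s with f x = x, φ x ∈ B := by
  induction s using Finset.strongInduction with
  | H s ih =>
    by_cases hall : ∀ x ∈ s, f x = x
    · rw [filter_true_of_mem hall, sub_self]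
      exact B.zero_mem
    push Not at hall
    obtain ⟨x, hx, hfx⟩ := hall
    have hmin : minimalPeriod f x = p := minimalPeriod_eq_prime (hper x hx) hfx
    set O : Finset X := (range p).image (fun i => f^[i] x) with hO
    have hinj : Set.InjOn (fun i => f^[i] x) (range p : Set ℕ) := by
      have := iterate_injOn_Iio_minimalPeriod (f := f) (x := x)
      rw [hmin] at this
      intro i hi j hj h
      exact this (by simpa using hi) (by simpa using hj) h
    have hOs : O ⊆ s := by
      intro y hy
      obtain ⟨i, _, rfl⟩ := mem_image.1 hy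
      exact iterate_mem hf hx i
    have hmemO : ∀ n, f^[n] x ∈ O := by
      intro n
      rw [← iterate_mod_minimalPeriod_eq, hmin]
      exact mem_image.2 ⟨n % p, mem_range.2 (Nat.mod_lt _ hp.out.pos), rfl⟩
    have hxO : x ∈ O := hmemO 0
    have hOf : ∀ y, y ∈ s → f y ∈ O → y ∈ O := by
      intro y hy h
      obtain ⟨i, _, hi⟩ := mem_image.1 h
      have h1 : f^[p - 1] (f y) = y := by
        rw [← iterate_succ_apply, Nat.succ_eq_add_one, Nat.sub_add_cancel hp.out.one_le]
        exact hper y hy
      rw [← h1, ← hi]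
      change f^[p - 1] (f^[i] x) ∈ O
      rw [← iterate_add_apply]
      exact hmemO _
    have hsub : s \ O ⊂ s := by
      refine ⟨sdiff_subset, fun h => ?_⟩
      exact (mem_sdiff.1 (h hx)).2 hxO
    have ih' := ih (s \ O) hsub (fun y hy => by
        rw [mem_sdiff] at hy ⊢
        exact ⟨hf y hy.1, fun h => hy.2 (hOf y hy.1 h)⟩)
      (fun y hy => hper y (mem_sdiff.1 hy).1) (fun y hy => hφ y (mem_sdiff.1 hy).1)
    have h1 : ∑ y ∈ O, φ y ∈ B := by
      rw [hO, sum_image (fun i hi j hj h => hinj (by simpa using hi) (by simpa using hj) h)]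
      exact hφ x hx
    have h2 : (s \ O).filter (fun y => f y = y) = s.filter (fun y => f y = y) := by
      ext y
      rw [mem_filter, mem_filter, mem_sdiff]
      refine ⟨fun h => ⟨h.1.1, h.2⟩, fun h => ⟨⟨h.1, fun hyO => ?_⟩, h.2⟩⟩
      obtain ⟨i, hi, hiy⟩ := mem_image.1 hyO
      have hip : i < p := mem_range.1 hi
      refine hfx ?_
      have h3 : f^[p - i] (f^[i] x) = x := by
        rw [← iterate_add_apply, Nat.sub_add_cancel hip.le]
        exact hper x hx
      have h4 : ∀ n, f^[n] y = y := fun n => iterate_fixed h.2 n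
      have h5 : x = y := by
        rw [← h3]
        rw [show f^[i] x = y from hiy, h4]
      rw [h5]
      exact h.2
    rw [h2] at ih'
    have h3 : ∑ y ∈ s, φ y = ∑ y ∈ s \ O, φ y + ∑ y ∈ O, φ y := (sum_sdiff hOs).symm
    rw [h3, add_sub_right_comm]
    exact B.add_mem ih' h1

/-- The number of fixed points is congruent to the number of points, modulo `p`. -/
theorem card_fixed (f : X → X) (s : Finset X) (hf : ∀ x ∈ s, f x ∈ s)
    (hper : ∀ x ∈ s, f^[p] x = x) :
    (s.card : ZMod p) = ((s.filter fun x => f x = x).card : ZMod p) := by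
  have h := sum_sub_sum_fixed (p := p) (⊥ : AddSubgroup (ZMod p)) f (fun _ => 1) s hf hper
    (fun x _ => by simp)
  rw [AddSubgroup.mem_bot, sub_eq_zero] at h
  simpa using h

end Pool.Agent.N829.TV
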