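import Mathlib
import Pool.Agent.N829.TV.Comb

/-!
Cosets, automorphisms of prime order, and lifting of fixed cosets to fixed elements.
-/

set_option autoImplicit false
set_option linter.unusedSectionVars false

namespace Pool.Agent.N829.TV

open Finset Function

variable {G : Type*} [Group G]

/-- the map of `G ⧸ L` induced by `σ` -/
def shift (σ : G →* G) (L : Subgroup G) (hL : ∀ g ∈ L, σ g ∈ L) : G ⧸ L → G ⧸ L :=
  Quotient.map' σ (by
    intro a b h
    rw [QuotientGroup.leftRel_apply] at *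
    simpa using hL _ h)

theorem shift_mk (σ : G →* G) (L : Subgroup G) (hL : ∀ g ∈ L, σ g ∈ L) (g : G) :
    shift σ L hL (g : G ⧸ L) = (σ g : G) := rfl

theorem shift_iterate (σ : G →* G) (L : Subgroup G) (hL : ∀ g ∈ L, σ g ∈ L) (g : G) (n : ℕ) :
    (shift σ L hL)^[n] (g : G ⧸ L) = (σ^[n] g : G) := by
  induction n generalizing g with
  | zero => rfl
  | succ n ih => rw [iterate_succ_apply, shift_mk, ih, iterate_succ_apply]

/-- the cosets `a m L`, `m ∈ M` -/
def cosets (a : G) (M L : Subgroup G) : Set (G ⧸ L) :=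
  {c | ∃ m ∈ M, ((a * m : G) : G ⧸ L) = c}

theorem ncard_cosets (a : G) (M L : Subgroup G) : (cosets a M L).ncard = L.relIndex M := by
  have h1 : cosets a M L = (fun c : G ⧸ L => a • c) '' (MulAction.orbit M ((1 : G) : G ⧸ L)) := by
    ext c
    constructor
    · rintro ⟨m, hm, rfl⟩
      refine ⟨((m : G) : G ⧸ L), ⟨⟨m, hm⟩, ?_⟩, rfl⟩
      change ((m * 1 : G) : G ⧸ L) = _
      rw [mul_one]
    · rintro ⟨_, ⟨⟨m, hm⟩, rfl⟩, rfl⟩
      refine ⟨m, hm, ?_⟩
      change _ = ((a * (m * 1) : G) : G ⧸ L)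
      rw [mul_one]
  rw [h1, Set.ncard_image_of_injective _ (MulAction.injective a), ← MulAction.index_stabilizer,
    Subgroup.relIndex]
  congr 1
  ext ⟨m, hm⟩
  rw [MulAction.mem_stabilizer_iff, Subgroup.mem_subgroupOf]
  change ((m * 1 : G) : G ⧸ L) = ((1 : G) : G ⧸ L) ↔ m ∈ L
  rw [mul_one, eq_comm, QuotientGroup.eq, inv_one, one_mul]

theorem finite_cosets {a : G} {M L : Subgroup G} (h : L.relIndex M ≠ 0) :
    (cosets a M L).Finite := by
  refine Set.finite_of_ncard_ne_zero ?_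
  rwa [ncard_cosets]

theorem shift_mem_cosets {σ : G →* G} {a : G} {M L : Subgroup G} (hL : ∀ g ∈ L, σ g ∈ L)
    (hM : ∀ g ∈ M, σ g ∈ M) (ha : a⁻¹ * σ a ∈ M) {c : G ⧸ L} (hc : c ∈ cosets a M L) :
    shift σ L hL c ∈ cosets a M L := by
  obtain ⟨m, hm, rfl⟩ := hc
  refine ⟨a⁻¹ * σ a * σ m, mul_mem ha (hM m hm), ?_⟩
  rw [shift_mk, map_mul]
  congr 1
  group

section topology

variable [TopologicalSpace G] {p : ℕ}

/-- The index in `K` of every open subgroup of `K` is finite and not divisible by `p`. -/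
def PrimeTo (p : ℕ) (K : Subgroup G) : Prop :=
  ∀ L : Subgroup G, IsOpen (L : Set G) → L ≤ K → ¬ p ∣ L.relIndex K

theorem PrimeTo.of_le {K M : Subgroup G} (h : PrimeTo p K) (hMK : M ≤ K) : PrimeTo p M := by
  intro L hL hLM hdvd
  refine h L hL (hLM.trans hMK) ?_
  rw [← Subgroup.relIndex_mul_relIndex L M K hLM hMK]
  exact hdvd.mul_right _

theorem PrimeTo.relIndex_ne_zero {K L : Subgroup G} (h : PrimeTo p K) (hL : IsOpen (L : Set G))
    (hLK : L ≤ K) : L.relIndex K ≠ 0 := fun h0 => h L hL hLK (h0 ▸ dvd_zero p)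

/-- the largest `σ`-stable subgroup of `W` -/
def core (σ : G →* G) (W : Subgroup G) : Subgroup G where
  carrier := {g | ∀ n : ℕ, σ^[n] g ∈ W}
  one_mem' := fun n => by
    rw [iterate_map_one]
    exact W.one_mem
  mul_mem' := fun {a b} ha hb n => by
    rw [iterate_map_mul]
    exact W.mul_mem (ha n) (hb n)
  inv_mem' := fun {a} ha n => by
    rw [iterate_map_inv]
    exact W.inv_mem (ha n)

theorem core_le (σ : G →* G) (W : Subgroup G) : core σ W ≤ W := fun _ hg => hg 0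

theorem map_mem_core (σ : G →* G) (W : Subgroup G) : ∀ g ∈ core σ W, σ g ∈ core σ W := by
  intro g hg n
  rw [← iterate_succ_apply]
  exact hg (n + 1)

theorem isOpen_core {σ : G →* G} (hσ : Continuous σ) (hp0 : 0 < p) (hp : ∀ g, σ^[p] g = g)
    {W : Subgroup G} (hW : IsOpen (W : Set G)) : IsOpen (core σ W : Set G) := by
  have h : (core σ W : Set G) = ⋂ n ∈ Set.Iio p, (σ^[n]) ⁻¹' (W : Set G) := by
    ext g
    simp only [Set.mem_iInter, Set.mem_preimage, SetLike.mem_coe, Set.mem_Iio]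
    refine ⟨fun hg n _ => hg n, fun hg n => ?_⟩
    have h1 : σ^[n] g = σ^[n % p] g :=
      ((isPeriodicPt_iff_minimalPeriod_dvd.2
        (isPeriodicPt_iff_minimalPeriod_dvd.1 (hp g))).iterate_mod_apply n).symm
    rw [h1]
    exact hg _ (Nat.mod_lt _ hp0)
  rw [h]
  exact (Set.finite_Iio p).isOpen_biInter fun n _ => hW.preimage (hσ.iterate n)

variable [IsTopologicalGroup G] [hp : Fact p.Prime]

/-- A `σ`-fixed coset of a subgroup of pro-order prime to `p` contains a `σ`-fixed element. -/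
theorem exists_fixed [T2Space G] {σ : G →* G} (hσ : Continuous σ) (hper : ∀ g, σ^[p] g = g)
    (hG : ∀ U ∈ nhds (1 : G), ∃ W : Subgroup G, IsOpen (W : Set G) ∧ (W : Set G) ⊆ U)
    {L : Subgroup G} (hLc : IsCompact (L : Set G)) (hLo : IsOpen (L : Set G)) (hL : PrimeTo p L)
    (hLσ : ∀ g ∈ L, σ g ∈ L) {k : G} (hk : k⁻¹ * σ k ∈ L) :
    ∃ h : G, σ h = h ∧ k⁻¹ * h ∈ L := by
  classical
  let ι : Type _ := {M : Subgroup G // IsOpen (M : Set G) ∧ M ≤ L ∧ ∀ g ∈ M, σ g ∈ M}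
  let X : ι → Set G := fun M => {y | k⁻¹ * y ∈ L ∧ y⁻¹ * σ y ∈ M.1}
  have hcl : ∀ M : ι, IsClosed (X M) := by
    intro M
    have h1 : IsClosed (M.1 : Set G) := Subgroup.isClosed_of_isOpen _ M.2.1
    refine (hLc.isClosed.preimage (continuous_const_mul k⁻¹)).inter
      (h1.preimage (continuous_inv.mul hσ))
  have hsub : ∀ M : ι, X M ⊆ (fun x => k * x) '' (L : Set G) := by
    intro M y hy
    exact ⟨k⁻¹ * y, hy.1, mul_inv_cancel_left k y⟩
  have hcomp : ∀ M : ι, IsCompact (X M) := fun M =>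
    (hLc.image (continuous_const_mul k)).of_isClosed_subset (hcl M) (hsub M)
  have hne : ∀ M : ι, (X M).Nonempty := by
    intro M
    have hidx : ¬ p ∣ M.1.relIndex L := hL M.1 M.2.1 M.2.2.1
    have hfin : (cosets k L M.1).Finite :=
      finite_cosets (hL.relIndex_ne_zero M.2.1 M.2.2.1)
    set s : Finset (G ⧸ M.1) := hfin.toFinset with hs
    have hcard : s.card = M.1.relIndex L := by
      rw [← ncard_cosets k L M.1, Set.ncard_eq_toFinset_card _ hfin]
    have hfs : ∀ c ∈ s, shift σ M.1 M.2.2.2 c ∈ s := by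
      intro c hc
      rw [hs, Set.Finite.mem_toFinset] at hc ⊢
      exact shift_mem_cosets M.2.2.2 hLσ hk hc
    have hps : ∀ c ∈ s, (shift σ M.1 M.2.2.2)^[p] c = c := by
      intro c _
      induction c using QuotientGroup.induction_on with
      | H g => rw [shift_iterate, hper]
    have h1 := card_fixed (p := p) (shift σ M.1 M.2.2.2) s hfs hps
    have h2 : (s.filter fun c => shift σ M.1 M.2.2.2 c = c).Nonempty := by
      rw [Finset.nonempty_iff_ne_empty]
      intro h0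
      rw [h0, Finset.card_empty, Nat.cast_zero, hcard, ZMod.natCast_eq_zero_iff] at h1
      exact hidx h1
    obtain ⟨c, hc⟩ := h2
    rw [mem_filter, hs, Set.Finite.mem_toFinset] at hc
    obtain ⟨⟨m, hm, rfl⟩, hfix⟩ := hc
    refine ⟨k * m, by simpa using hm, ?_⟩
    rw [shift_mk, eq_comm, QuotientGroup.eq] at hfix
    exact hfix
  have hdir : Directed (· ⊇ ·) X := by
    intro M M'
    refine ⟨⟨M.1 ⊓ M'.1, M.2.1.inter M'.2.1, inf_le_left.trans M.2.2.1,
      fun g hg => ⟨M.2.2.2 g hg.1, M'.2.2.2 g hg.2⟩⟩, fun y hy => ⟨hy.1, hy.2.1⟩,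
      fun y hy => ⟨hy.1, hy.2.2⟩⟩
  have hι : Nonempty ι := ⟨⟨L, hLo, le_rfl, hLσ⟩⟩
  obtain ⟨y, hy⟩ := IsCompact.nonempty_iInter_of_directed_nonempty_isCompact_isClosed X hdir hne
    hcomp hcl
  rw [Set.mem_iInter] at hy
  refine ⟨y, ?_, (hy ⟨L, hLo, le_rfl, hLσ⟩).1⟩
  by_contra hne1
  have h1 : y⁻¹ * σ y ≠ 1 := fun h => hne1 (by rw [inv_mul_eq_one] at h; exact h.symm)
  obtain ⟨W, hWo, hWU⟩ := hG {y⁻¹ * σ y}ᶜ (isOpen_compl_singleton.mem_nhds h1.symm)
  have h2 := (hy ⟨L ⊓ core σ W, hLo.inter (isOpen_core hσ hp.out.pos hper hWo), inf_le_left,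
    fun g hg => ⟨hLσ g hg.1, map_mem_core σ W g hg.2⟩⟩).2
  exact hWU (core_le σ W h2.2) rfl

end topology

end Pool.Agent.N829.TV
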