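import Mathlib
import Pool.Agent.N829.TV.Cosets

/-!
Averaging over a compact open subgroup which is stable under an automorphism of prime order `p` and
has pro-order prime to `p`, on a representation in characteristic `p`.
-/

set_option autoImplicit false
set_option linter.unusedSectionVars false

namespace Pool.Agent.N829.TV

open Finset Function

variable {G k V : Type*} [Group G] [Field k] [AddCommGroup V] [Module k V]

/-- the sum over the cosets in `s` -/
noncomputable def av {L : Subgroup G} (ρ : Representation k G V) (s : Finset (G ⧸ L)) : V →ₗ[k] V :=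
  ∑ c ∈ s, ρ c.out

theorem av_apply {L : Subgroup G} (ρ : Representation k G V) (s : Finset (G ⧸ L)) (v : V) :
    av ρ s v = ∑ c ∈ s, ρ c.out v := by
  rw [av, LinearMap.sum_apply]

theorem apply_out {L : Subgroup G} {ρ : Representation k G V} {v : V} (hv : ∀ g ∈ L, ρ g v = v)
    (g : G) : ρ (g : G ⧸ L).out v = ρ g v := by
  obtain ⟨h, hh⟩ := QuotientGroup.mk_out_eq_mul L g
  rw [hh, map_mul, Module.End.mul_apply, hv _ h.2]

theorem apply_av {L : Subgroup G} {ρ : Representation k G V} {s : Finset (G ⧸ L)} {v : V}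
    (hv : ∀ g ∈ L, ρ g v = v) {g : G} (hg : ∀ c ∈ s, g • c ∈ s) : ρ g (av ρ s v) = av ρ s v := by
  classical
  rw [av_apply, map_sum]
  have h1 : ∀ c ∈ s, ρ g (ρ c.out v) = ρ (g • c).out v := by
    intro c _
    rw [← Module.End.mul_apply, ← map_mul]
    have h2 : g • c = ((g * c.out : G) : G ⧸ L) := by
      conv_lhs => rw [← QuotientGroup.out_eq' c]
      rfl
    rw [h2, apply_out hv]
  rw [sum_congr rfl h1]
  have hinj : Set.InjOn (fun c : G ⧸ L => g • c) s := fun _ _ _ _ h => MulAction.injective g h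
  have himg : s.image (fun c => g • c) = s :=
    eq_of_subset_of_card_le (image_subset_iff.2 hg) (by rw [card_image_of_injOn hinj])
  conv_rhs => rw [← himg]
  rw [sum_image hinj]

theorem S_av {L : Subgroup G} {ρ : Representation k G V} {σ : G →* G} (hL : ∀ g ∈ L, σ g ∈ L)
    {p : ℕ} (hper : ∀ g, σ^[p] g = g) (hp : 0 < p) {S : V →ₗ[k] V}
    (hS : ∀ g v, S (ρ g v) = ρ (σ g) (S v)) {s : Finset (G ⧸ L)}
    (hs : ∀ c ∈ s, shift σ L hL c ∈ s) {v : V} (hv : ∀ g ∈ L, ρ g (S v) = S v) :
    S (av ρ s v) = av ρ s (S v) := by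
  classical
  rw [av_apply, av_apply, map_sum]
  have h1 : ∀ c ∈ s, S (ρ c.out v) = ρ (shift σ L hL c).out (S v) := by
    intro c _
    have h2 : shift σ L hL c = (σ c.out : G) := by
      conv_lhs => rw [← QuotientGroup.out_eq' c]
      rfl
    rw [hS, h2, apply_out hv]
  rw [sum_congr rfl h1]
  have hit : ∀ c : G ⧸ L, (shift σ L hL)^[p] c = c := by
    intro c
    induction c using QuotientGroup.induction_on with
    | H g => rw [shift_iterate, hper]
  have hinj : Injective (shift σ L hL) := by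
    intro c d h
    rw [← hit c, ← hit d, ← Nat.sub_add_cancel hp, iterate_succ_apply, iterate_succ_apply, h]
  have himg : s.image (shift σ L hL) = s :=
    eq_of_subset_of_card_le (image_subset_iff.2 hs) (by rw [card_image_of_injective _ hinj])
  conv_rhs => rw [← himg]
  rw [sum_image hinj.injOn]

variable [TopologicalSpace G] [IsTopologicalGroup G] [T2Space G] {p : ℕ} [hp : Fact p.Prime]
  [CharP k p]

/-- The main averaging lemma. -/
theorem exists_average {σ : G →* G} (hσ : Continuous σ) (hper : ∀ g, σ^[p] g = g)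
    (hG : ∀ U ∈ nhds (1 : G), ∃ W : Subgroup G, IsOpen (W : Set G) ∧ (W : Set G) ⊆ U)
    {K : Subgroup G} (hKc : IsCompact (K : Set G)) (hKo : IsOpen (K : Set G)) (hK : PrimeTo p K)
    (hKσ : ∀ g ∈ K, σ g ∈ K) {ρ : Representation k G V} {x : V}
    (hx : ∃ W : Subgroup G, IsOpen (W : Set G) ∧ ∀ g ∈ W, ρ g x = x) {B : Submodule k V}
    (hB : ∀ g, ∑ i ∈ range p, ρ (σ^[i] g) x ∈ B)
    (hfix : ∀ h ∈ K, σ h = h → ρ h x - x ∈ B) :
    ∃ (L : Subgroup G) (s : Finset (G ⧸ L)) (c : k) (hL : ∀ g ∈ L, σ g ∈ L),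
      (∀ g ∈ L, ρ g x = x) ∧ (∀ c ∈ s, shift σ L hL c ∈ s) ∧ c • av ρ s x - x ∈ B ∧
        (∀ g ∈ K, ρ g (c • av ρ s x) = c • av ρ s x) := by
  classical
  obtain ⟨W, hWo, hW⟩ := hx
  set L : Subgroup G := K ⊓ core σ W with hLdef
  have hLo : IsOpen (L : Set G) := hKo.inter (isOpen_core hσ hp.out.pos hper hWo)
  have hLK : L ≤ K := inf_le_left
  have hLσ : ∀ g ∈ L, σ g ∈ L := fun g hg => ⟨hKσ g hg.1, map_mem_core σ W g hg.2⟩
  have hLx : ∀ g ∈ L, ρ g x = x := fun g hg => hW g (core_le σ W hg.2)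
  have hLc : IsCompact (L : Set G) :=
    hKc.of_isClosed_subset (Subgroup.isClosed_of_isOpen _ hLo) hLK
  have hLp : PrimeTo p L := hK.of_le hLK
  have hidx : ¬ p ∣ L.relIndex K := hK L hLo hLK
  have hfin : (cosets (1 : G) K L).Finite := finite_cosets (hK.relIndex_ne_zero hLo hLK)
  set s : Finset (G ⧸ L) := hfin.toFinset with hs
  have hmem : ∀ c, c ∈ s ↔ ∃ m ∈ K, ((m : G) : G ⧸ L) = c := by
    intro c
    rw [hs, Set.Finite.mem_toFinset]
    simp only [cosets, Set.mem_ofPred_eq, one_mul]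
  have hcard : s.card = L.relIndex K := by
    rw [← ncard_cosets (1 : G) K L, Set.ncard_eq_toFinset_card _ hfin]
  have hcard0 : (s.card : k) ≠ 0 := by
    rw [hcard, Ne, CharP.cast_eq_zero_iff k p]
    exact hidx
  have hfs : ∀ c ∈ s, shift σ L hLσ c ∈ s := by
    intro c hc
    rw [hmem] at hc ⊢
    obtain ⟨m, hm, rfl⟩ := hc
    exact ⟨σ m, hKσ m hm, rfl⟩
  have hps : ∀ c ∈ s, (shift σ L hLσ)^[p] c = c := by
    intro c _
    induction c using QuotientGroup.induction_on with
    | H g => rw [shift_iterate, hper]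
  have hcong : ((s.card : ℕ) : k) = ((s.filter fun c => shift σ L hLσ c = c).card : k) := by
    have h1 := card_fixed (p := p) (shift σ L hLσ) s hfs hps
    rw [ZMod.natCast_eq_natCast_iff] at h1
    exact (CharP.natCast_eq_natCast k p).2 h1
  have hsum : av ρ s x - (s.card : k) • x ∈ B := by
    have h1 := sum_sub_sum_fixed (p := p) B.toAddSubgroup (shift σ L hLσ)
      (fun c : G ⧸ L => ρ c.out x) s hfs hps (fun c _ => by
        induction c using QuotientGroup.induction_on with
        | H g =>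
          have h2 : ∀ i ∈ range p, ρ ((shift σ L hLσ)^[i] (g : G ⧸ L)).out x = ρ (σ^[i] g) x := by
            intro i _
            rw [shift_iterate, apply_out hLx]
          rw [sum_congr rfl h2]
          exact hB g)
    have h3 : (∑ c ∈ s with shift σ L hLσ c = c, ρ c.out x) - (s.card : k) • x ∈ B := by
      rw [hcong, Nat.cast_smul_eq_nsmul, ← Finset.sum_const, ← Finset.sum_sub_distrib]
      refine sum_mem fun c hc => ?_
      rw [mem_filter, hmem] at hc
      obtain ⟨⟨m, hm, rfl⟩, hfixc⟩ := hc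
      rw [shift_mk, eq_comm, QuotientGroup.eq] at hfixc
      obtain ⟨h, hh, hhL⟩ := exists_fixed hσ hper hG hLc hLo hLp hLσ hfixc
      have h5 : ((m : G) : G ⧸ L) = (h : G) := QuotientGroup.eq.2 hhL
      have h6 : h ∈ K := by
        have := mul_mem hm (hLK hhL)
        rwa [mul_inv_cancel_left] at this
      rw [h5, apply_out hLx]
      exact hfix h h6 hh
    have h4 := B.add_mem h1 h3
    rw [← av_apply] at h4
    simpa using h4
  refine ⟨L, s, (s.card : k)⁻¹, hLσ, hLx, hfs, ?_, fun g hg => ?_⟩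
  · have h1 := B.smul_mem (s.card : k)⁻¹ hsum
    rwa [smul_sub, smul_smul, inv_mul_cancel₀ hcard0, one_smul] at h1
  · rw [map_smul, apply_av hLx]
    intro c hc
    rw [hmem] at hc ⊢
    obtain ⟨m, hm, rfl⟩ := hc
    exact ⟨g * m, mul_mem hg hm, rfl⟩

end Pool.Agent.N829.TV
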