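import Mathlib

/-!
# Tate cohomology of representations fixed by an automorphism

Smooth and admissible representations, the extension of a representation of `G` to `G ⋊ ⟨σ⟩`, and the
representations `T⁰` and `T¹` of the group of `σ`-fixed points.
-/

set_option autoImplicit false

open Finset

namespace Pool.Agent.N829.TV

variable {G k V : Type*} [Group G] [Field k] [AddCommGroup V] [Module k V]

/-- The representation is smooth: every vector has an open stabiliser. -/
def Smooth [TopologicalSpace G] (ρ : Representation k G V) : Prop :=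
  ∀ v : V, IsOpen {g : G | ρ g v = v}

/-- the space of the vectors fixed by the subgroup `K` -/
def fixedBy (ρ : Representation k G V) (K : Subgroup G) : Submodule k V where
  carrier := {v | ∀ g ∈ K, ρ g v = v}
  zero_mem' := fun g _ => map_zero _
  add_mem' := fun hv hw g hg => by rw [map_add, hv g hg, hw g hg]
  smul_mem' := fun c v hv g hg => by rw [map_smul, hv g hg]

/-- The representation is admissible: it is smooth, and the space of the vectors fixed by `K` is
finite-dimensional for every compact open subgroup `K`. -/
def Admissible [TopologicalSpace G] (ρ : Representation k G V) : Prop :=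
  Smooth ρ ∧ ∀ K : Subgroup G, IsOpen (K : Set G) → IsCompact (K : Set G) →
    FiniteDimensional k (fixedBy ρ K)

/-- the subgroup of the `σ`-fixed elements -/
def fixedSubgroup (σ : G →* G) : Subgroup G where
  carrier := {g | σ g = g}
  one_mem' := map_one σ
  mul_mem' := fun {a b} ha hb => by
    change σ (a * b) = a * b
    rw [map_mul, ha, hb]
  inv_mem' := fun {a} ha => by
    change σ a⁻¹ = a⁻¹
    rw [map_inv, ha]

/-- The operator `S` extends the representation `ρ` of `G` to a representation of `G ⋊ ⟨σ⟩`, for an
automorphism `σ` with `σ ^ p = 1` (`S` is the operator by which `σ` acts). -/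
structure IsExtension (p : ℕ) (σ : G →* G) (ρ : Representation k G V) (S : Module.End k V) :
    Prop where
  apply_apply : ∀ g v, S (ρ g v) = ρ (σ g) (S v)
  pow_eq_one : S ^ p = 1

/-- the operator `N = 1 + S + ... + S ^ (p - 1)` -/
def normOp (p : ℕ) (S : Module.End k V) : Module.End k V := ∑ i ∈ range p, S ^ i

/-- the representation of `H` on `A / (A ∩ B)`, for two `H`-stable subspaces `A` and `B` of `V` -/
def subquotient {H : Type*} [Group H] (ρ : Representation k H V) (A B : Submodule k V)
    (hA : ∀ h, A ≤ A.comap (ρ h)) (hB : ∀ h, B ≤ B.comap (ρ h)) :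
    Representation k H (A ⧸ B.comap A.subtype) :=
  (ρ.subrepresentation A hA).quotient (B.comap A.subtype) fun h _ hx => hB h hx

section

variable {p : ℕ} {σ : G →* G} {ρ : Representation k G V} {S : Module.End k V}

theorem IsExtension.pow_apply (h : IsExtension p σ ρ S) {g : G} (hg : σ g = g) (n : ℕ) (v : V) :
    (S ^ n) (ρ g v) = ρ g ((S ^ n) v) := by
  induction n with
  | zero => rfl
  | succ n ih =>
    rw [pow_succ', Module.End.mul_apply, Module.End.mul_apply, ih, h.apply_apply, hg]

theorem IsExtension.normOp_apply (h : IsExtension p σ ρ S) {g : G} (hg : σ g = g) (v : V) :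
    normOp p S (ρ g v) = ρ g (normOp p S v) := by
  rw [normOp, LinearMap.sum_apply, LinearMap.sum_apply, map_sum]
  exact sum_congr rfl fun n _ => h.pow_apply hg n v

theorem IsExtension.sub_apply (h : IsExtension p σ ρ S) {g : G} (hg : σ g = g) (v : V) :
    (1 - S) (ρ g v) = ρ g ((1 - S) v) := by
  rw [LinearMap.sub_apply, LinearMap.sub_apply, map_sub, h.apply_apply, hg, Module.End.one_apply,
    Module.End.one_apply]

theorem ker_le {T : Module.End k V} (hT : ∀ g, σ g = g → ∀ v, T (ρ g v) = ρ g (T v))
    (g : fixedSubgroup σ) :
    LinearMap.ker T ≤ (LinearMap.ker T).comap ((ρ.comp (fixedSubgroup σ).subtype) g) := by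
  intro v hv
  change T (ρ g v) = 0
  rw [hT g g.2, LinearMap.mem_ker.1 hv, map_zero]

theorem range_le {T : Module.End k V} (hT : ∀ g, σ g = g → ∀ v, T (ρ g v) = ρ g (T v))
    (g : fixedSubgroup σ) :
    LinearMap.range T ≤ (LinearMap.range T).comap ((ρ.comp (fixedSubgroup σ).subtype) g) := by
  rintro _ ⟨v, rfl⟩
  exact ⟨ρ g v, hT g g.2 v⟩

/-- the representation of `H = G ^ σ` on `T⁰ = ker (1 - S) / N V` -/
noncomputable def T0 (h : IsExtension p σ ρ S) :
    Representation k (fixedSubgroup σ)
      (LinearMap.ker (1 - S) ⧸ (LinearMap.range (normOp p S)).comap (LinearMap.ker (1 - S)).subtype) :=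
  subquotient (ρ.comp (fixedSubgroup σ).subtype) (LinearMap.ker (1 - S))
    (LinearMap.range (normOp p S)) (ker_le fun _ hg => h.sub_apply hg)
    (range_le fun _ hg => h.normOp_apply hg)

/-- the representation of `H = G ^ σ` on `T¹ = ker N / (1 - S) V` -/
noncomputable def T1 (h : IsExtension p σ ρ S) :
    Representation k (fixedSubgroup σ)
      (LinearMap.ker (normOp p S) ⧸ (LinearMap.range (1 - S)).comap (LinearMap.ker (normOp p S)).subtype) :=
  subquotient (ρ.comp (fixedSubgroup σ).subtype) (LinearMap.ker (normOp p S))
    (LinearMap.range (1 - S)) (ker_le fun _ hg => h.normOp_apply hg)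
    (range_le fun _ hg => h.sub_apply hg)

end

end Pool.Agent.N829.TV
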