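import Mathlib
import Pool.Agent.N829.TV.Cosets

/-!
Closed subgroups of `GL_n(F)`, for a nonarchimedean local field `F` of residue characteristic
`ℓ ≠ p`, have arbitrarily small compact open subgroups of pro-order prime to `p`.
-/

set_option autoImplicit false
set_option linter.unusedSectionVars false

namespace Pool.Agent.N829.TV

open Filter Topology

section general

variable {G : Type*} [Group G] [TopologicalSpace G] [IsTopologicalGroup G]

theorem primeTo_of_pow {p ℓ : ℕ} (hp : p.Prime) (hℓ : ℓ.Prime) (hne : ℓ ≠ p) {K : Subgroup G}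
    (hKc : IsCompact (K : Set G))
    (h : ∀ g ∈ K, Tendsto (fun m : ℕ => g ^ ℓ ^ m) atTop (𝓝 1)) : PrimeTo p K := by
  have hℓ' : Fact ℓ.Prime := ⟨hℓ⟩
  intro L hLo hLK hdvd
  have hcs : CompactSpace K := isCompact_iff_compactSpace.1 hKc
  set L' : Subgroup K := L.subgroupOf K with hL'
  have hL'o : IsOpen (L' : Set K) := hLo.preimage continuous_subtype_val
  have hfin : Finite (K ⧸ L') := Subgroup.quotient_finite_of_isOpen L' hL'o
  have hfi : L'.FiniteIndex := Subgroup.finiteIndex_of_finite_quotient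
  have hNo : IsOpen (L'.normalCore : Set K) :=
    Subgroup.isOpen_of_isClosed_of_finiteIndex _
      (L'.normalCore_isClosed (Subgroup.isClosed_of_isOpen _ hL'o))
  have hPG : IsPGroup ℓ (K ⧸ L'.normalCore) := by
    intro q
    obtain ⟨g, rfl⟩ := QuotientGroup.mk_surjective q
    have h1 : Tendsto (fun m : ℕ => g ^ ℓ ^ m) atTop (𝓝 (1 : K)) := by
      rw [Topology.IsEmbedding.subtypeVal.tendsto_nhds_iff]
      exact h g g.2
    have h2 := h1.eventually (hNo.mem_nhds (Subgroup.one_mem _))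
    obtain ⟨m, hm⟩ := h2.exists
    refine ⟨m, ?_⟩
    rw [← QuotientGroup.mk_pow, QuotientGroup.eq_one_iff]
    exact hm
  have hfinN : Finite (K ⧸ L'.normalCore) := Subgroup.quotient_finite_of_isOpen _ hNo
  obtain ⟨a, ha⟩ := IsPGroup.iff_card.1 hPG
  have h3 : L'.index ∣ ℓ ^ a := by
    rw [← ha]
    exact Subgroup.index_dvd_of_le (Subgroup.normalCore_le L')
  have h4 : p ∣ ℓ ^ a := dvd_trans hdvd h3
  exact hne ((Nat.prime_dvd_prime_iff_eq hp hℓ).1 (hp.dvd_of_dvd_pow h4)).symm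

end general

section matrix

variable {F : Type*} [NontriviallyNormedField F] [IsUltrametricDist F] {n : ℕ}

/-- all entries of the matrix have absolute value at most `r` -/
def Small (r : ℝ) (A : Matrix (Fin n) (Fin n) F) : Prop := ∀ i j, ‖A i j‖ ≤ r

theorem Small.add {r : ℝ} {A B : Matrix (Fin n) (Fin n) F} (hA : Small r A) (hB : Small r B) :
    Small r (A + B) := fun i j =>
  (IsUltrametricDist.norm_add_le_max _ _).trans (max_le (hA i j) (hB i j))

theorem Small.neg {r : ℝ} {A : Matrix (Fin n) (Fin n) F} (hA : Small r A) : Small r (-A) :=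
  fun i j => by
    rw [Matrix.neg_apply, norm_neg]
    exact hA i j

theorem Small.sub {r : ℝ} {A B : Matrix (Fin n) (Fin n) F} (hA : Small r A) (hB : Small r B) :
    Small r (A - B) := by
  rw [sub_eq_add_neg]
  exact hA.add hB.neg

theorem Small.mono {r r' : ℝ} (h : r ≤ r') {A : Matrix (Fin n) (Fin n) F} (hA : Small r A) :
    Small r' A := fun i j => (hA i j).trans h

theorem Small.mul {r r' : ℝ} (hr : 0 ≤ r) (hr' : 0 ≤ r') {A B : Matrix (Fin n) (Fin n) F}
    (hA : Small r A) (hB : Small r' B) : Small (r * r') (A * B) := by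
  intro i j
  rw [Matrix.mul_apply]
  refine IsUltrametricDist.norm_sum_le_of_forall_le_of_nonneg (mul_nonneg hr hr') fun k _ => ?_
  rw [norm_mul]
  exact mul_le_mul (hA i k) (hB k j) (norm_nonneg _) hr

theorem small_one : Small 1 (1 : Matrix (Fin n) (Fin n) F) := by
  intro i j
  rw [Matrix.one_apply]
  split_ifs <;> simp

theorem small_zero {r : ℝ} (hr : 0 ≤ r) : Small r (0 : Matrix (Fin n) (Fin n) F) := by
  intro i j
  simpa using hr

theorem small_sum {r : ℝ} (hr : 0 ≤ r) {ι : Type*} (s : Finset ι)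
    (A : ι → Matrix (Fin n) (Fin n) F) (h : ∀ x ∈ s, Small r (A x)) : Small r (∑ x ∈ s, A x) := by
  classical
  induction s using Finset.induction_on with
  | empty => simpa using small_zero hr
  | insert a s ha ih =>
    rw [Finset.sum_insert ha]
    exact (h a (Finset.mem_insert_self a s)).add
      (ih fun x hx => h x (Finset.mem_insert_of_mem hx))

theorem small_mul_sub_one {r : ℝ} (hr : 0 ≤ r) (hr1 : r ≤ 1) {A B : Matrix (Fin n) (Fin n) F}
    (hA : Small r (A - 1)) (hB : Small r (B - 1)) : Small r (A * B - 1) := by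
  have h1 : A * B - 1 = (A - 1) * (B - 1) + ((A - 1) + (B - 1)) := by noncomm_ring
  rw [h1]
  refine Small.add (Small.mono ?_ (hA.mul hr hr hB)) (hA.add hB)
  nlinarith

theorem small_pow_sub_one {r : ℝ} (hr : 0 ≤ r) (hr1 : r ≤ 1) {A : Matrix (Fin n) (Fin n) F}
    (hA : Small r (A - 1)) (m : ℕ) : Small r (A ^ m - 1) := by
  induction m with
  | zero => simpa using small_zero hr
  | succ m ih =>
    rw [pow_succ]
    exact small_mul_sub_one hr hr1 ih hA

theorem small_pow_prime {ℓ : ℕ} {r c : ℝ} (hr : 0 ≤ r) (hrc : r ≤ c) (hc1 : c ≤ 1)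
    (hℓ : ‖(ℓ : F)‖ ≤ c) {A : Matrix (Fin n) (Fin n) F} (hA : Small r (A - 1)) :
    Small (c * r) (A ^ ℓ - 1) := by
  have hc : 0 ≤ c := hr.trans hrc
  rw [← geom_sum_mul]
  refine Small.mul hc hr ?_ hA
  have h1 : ∑ i ∈ Finset.range ℓ, A ^ i =
      ∑ i ∈ Finset.range ℓ, (A ^ i - 1) + (ℓ : Matrix (Fin n) (Fin n) F) := by
    rw [Finset.sum_sub_distrib]
    simp
  rw [h1]
  refine (small_sum hc _ _ fun i _ => (small_pow_sub_one hr (hrc.trans hc1) hA i).mono hrc).add ?_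
  intro i j
  rw [Matrix.natCast_apply]
  split_ifs
  · exact hℓ
  · simpa using hc

theorem small_pow_prime_pow {ℓ : ℕ} {r c : ℝ} (hr : 0 ≤ r) (hrc : r ≤ c) (hc1 : c ≤ 1)
    (hℓ : ‖(ℓ : F)‖ ≤ c) {A : Matrix (Fin n) (Fin n) F} (hA : Small r (A - 1)) (m : ℕ) :
    Small (c ^ m * r) (A ^ ℓ ^ m - 1) := by
  have hc : 0 ≤ c := hr.trans hrc
  induction m with
  | zero => simpa using hA
  | succ m ih =>
    rw [pow_succ ℓ, pow_mul, pow_succ' c, mul_assoc]
    refine small_pow_prime (by positivity) ?_ hc1 hℓ ih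
    calc c ^ m * r ≤ 1 * r := by
          refine mul_le_mul_of_nonneg_right (pow_le_one₀ hc hc1) hr
      _ ≤ c := by rw [one_mul]; exact hrc

theorem exists_small (A : Matrix (Fin n) (Fin n) F) : ∃ M : ℝ, 0 ≤ M ∧ Small M A := by
  refine ⟨∑ i, ∑ j, ‖A i j‖, by positivity, fun i j => ?_⟩
  refine le_trans ?_ (Finset.single_le_sum (f := fun i => ∑ j, ‖A i j‖)
    (fun i _ => by positivity) (Finset.mem_univ i))
  exact Finset.single_le_sum (f := fun j => ‖A i j‖) (fun j _ => by positivity) (Finset.mem_univ j)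

theorem small_inv {ℓ : ℕ} {r c : ℝ} (hr : 0 < r) (hrc : r ≤ c) (hc1 : c < 1)
    (hℓ0 : 0 < ℓ) (hℓ : ‖(ℓ : F)‖ ≤ c) {g : GL (Fin n) F}
    (hg : Small r ((g : Matrix (Fin n) (Fin n) F) - 1)) :
    Small r (((g⁻¹ : GL (Fin n) F) : Matrix (Fin n) (Fin n) F) - 1) := by
  have hc : 0 ≤ c := hr.le.trans hrc
  obtain ⟨M, hM0, hM⟩ := exists_small ((g⁻¹ : GL (Fin n) F) : Matrix (Fin n) (Fin n) F)
  have h1 : Tendsto (fun m : ℕ => M * (c ^ m * r)) atTop (𝓝 0) := by
    have := ((tendsto_pow_atTop_nhds_zero_of_lt_one hc hc1).mul_const r).const_mul M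
    simpa using this
  obtain ⟨m, hm⟩ := (h1.eventually (gt_mem_nhds hr)).exists
  have h2 := hM.mul hM0 (by positivity) (small_pow_prime_pow hr.le hrc hc1.le hℓ hg m)
  have hpos : 1 ≤ ℓ ^ m := Nat.one_le_pow _ _ hℓ0
  have h3 : (((g⁻¹ : GL (Fin n) F) : Matrix (Fin n) (Fin n) F)) - 1 =
      ((g : Matrix (Fin n) (Fin n) F) ^ (ℓ ^ m - 1) - 1) -
        ((g⁻¹ : GL (Fin n) F) : Matrix (Fin n) (Fin n) F) *
          ((g : Matrix (Fin n) (Fin n) F) ^ ℓ ^ m - 1) := by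
    have h4 : ((g⁻¹ : GL (Fin n) F) : Matrix (Fin n) (Fin n) F) *
        (g : Matrix (Fin n) (Fin n) F) ^ ℓ ^ m =
          (g : Matrix (Fin n) (Fin n) F) ^ (ℓ ^ m - 1) := by
      conv_lhs => rw [← Nat.sub_add_cancel hpos, pow_succ', ← mul_assoc]
      rw [← Units.val_mul, inv_mul_cancel, Units.val_one, one_mul]
    rw [mul_sub, h4, mul_one]
    abel
  rw [h3]
  exact (small_pow_sub_one hr.le (hrc.trans hc1.le) hg _).sub (h2.mono hm.le)

/-- the matrices in `GL_n(F)` which are congruent to `1` -/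
def congr {ℓ : ℕ} {r c : ℝ} (hr : 0 < r) (hrc : r ≤ c) (hc1 : c < 1)
    (hℓ0 : 0 < ℓ) (hℓ : ‖(ℓ : F)‖ ≤ c) : Subgroup (GL (Fin n) F) where
  carrier := {g | Small r ((g : Matrix (Fin n) (Fin n) F) - 1)}
  one_mem' := by
    change Small r _
    rw [Units.val_one, sub_self]
    exact small_zero hr.le
  mul_mem' := fun {a b} ha hb => by
    change Small r _
    rw [Units.val_mul]
    exact small_mul_sub_one hr.le (hrc.trans hc1.le) ha hb
  inv_mem' := fun {a} ha => small_inv hr hrc hc1 hℓ0 hℓ ha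

theorem isOpen_small {r : ℝ} (hr : 0 < r) :
    IsOpen {A : Matrix (Fin n) (Fin n) F | Small r (A - 1)} := by
  have h : {A : Matrix (Fin n) (Fin n) F | Small r (A - 1)} =
      ⋂ i : Fin n, ⋂ j : Fin n, (fun A : Matrix (Fin n) (Fin n) F => (A - 1) i j) ⁻¹'
        Metric.closedBall (0 : F) r := by
    ext A
    simp [Small]
  rw [h]
  refine isOpen_iInter_of_finite fun i => isOpen_iInter_of_finite fun j => ?_
  refine (IsUltrametricDist.isOpen_closedBall (0 : F) hr.ne').preimage ?_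
  exact ((continuous_id.sub continuous_const).matrix_elem i j)

theorem isCompact_small [ProperSpace F] (r : ℝ) :
    IsCompact {A : Matrix (Fin n) (Fin n) F | Small r (A - 1)} := by
  have h : {A : Matrix (Fin n) (Fin n) F | Small r (A - 1)} =
      Set.pi Set.univ (fun i : Fin n => Set.pi Set.univ fun j : Fin n =>
        Metric.closedBall ((1 : Matrix (Fin n) (Fin n) F) i j) r) := by
    ext A
    constructor
    · intro hA i _ j _
      rw [mem_closedBall_iff_norm]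
      exact hA i j
    · intro hA i j
      have h1 := hA i trivial j trivial
      rwa [mem_closedBall_iff_norm] at h1
  rw [h]
  exact isCompact_univ_pi fun i => isCompact_univ_pi fun j => isCompact_closedBall _ _

theorem isOpen_congr {ℓ : ℕ} {r c : ℝ} (hr : 0 < r) (hrc : r ≤ c) (hc1 : c < 1)
    (hℓ0 : 0 < ℓ) (hℓ : ‖(ℓ : F)‖ ≤ c) :
    IsOpen (congr (n := n) hr hrc hc1 hℓ0 hℓ : Set (GL (Fin n) F)) :=
  (isOpen_small hr).preimage Units.continuous_val

theorem isCompact_congr [ProperSpace F] {ℓ : ℕ} {r c : ℝ} (hr : 0 < r) (hrc : r ≤ c) (hc1 : c < 1)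
    (hℓ0 : 0 < ℓ) (hℓ : ‖(ℓ : F)‖ ≤ c) :
    IsCompact (congr (n := n) hr hrc hc1 hℓ0 hℓ : Set (GL (Fin n) F)) := by
  have h1 : (congr (n := n) hr hrc hc1 hℓ0 hℓ : Set (GL (Fin n) F)) =
      Units.embedProduct (Matrix (Fin n) (Fin n) F) ⁻¹'
        ({A | Small r (A - 1)} ×ˢ (MulOpposite.unop ⁻¹' {A | Small r (A - 1)})) := by
    ext g
    refine ⟨fun hg => ⟨hg, small_inv hr hrc hc1 hℓ0 hℓ hg⟩, fun hg => hg.1⟩
  rw [h1]
  refine Units.isClosedEmbedding_embedProduct.isCompact_preimage ?_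
  refine (isCompact_small r).prod ?_
  exact MulOpposite.opHomeomorph.symm.isCompact_preimage.2 (isCompact_small r)

theorem exists_ball_subset {U : Set (Fin n → Fin n → F)} {A₀ : Fin n → Fin n → F}
    (hU : U ∈ 𝓝 A₀) : ∃ r : ℝ, 0 < r ∧ {A : Fin n → Fin n → F | ∀ i j, ‖A i j - A₀ i j‖ ≤ r} ⊆ U := by
  obtain ⟨r, hr, hrU⟩ := Metric.nhds_basis_closedBall.mem_iff.1 hU
  refine ⟨r, hr, fun A hA => hrU ?_⟩
  rw [Metric.mem_closedBall, dist_pi_le_iff hr.le]
  intro i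
  rw [dist_pi_le_iff hr.le]
  intro j
  rw [dist_eq_norm]
  exact hA i j

theorem exists_small_subset {U : Set (Matrix (Fin n) (Fin n) F)} (hU : U ∈ 𝓝 1) :
    ∃ r : ℝ, 0 < r ∧ {A : Matrix (Fin n) (Fin n) F | Small r (A - 1)} ⊆ U :=
  exists_ball_subset (A₀ := (1 : Matrix (Fin n) (Fin n) F)) hU

theorem exists_congr_subset {ℓ : ℕ} {c : ℝ} (hc0 : 0 < c) (hc1 : c < 1)
    (hℓ0 : 0 < ℓ) (hℓ : ‖(ℓ : F)‖ ≤ c) {U : Set (GL (Fin n) F)} (hU : U ∈ 𝓝 1) :
    ∃ (r : ℝ) (hr : 0 < r) (hrc : r ≤ c), (congr (n := n) hr hrc hc1 hℓ0 hℓ : Set _) ⊆ U := by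
  rw [Units.isInducing_embedProduct.nhds_eq_comap, mem_comap] at hU
  obtain ⟨W, hW, hWU⟩ := hU
  rw [map_one, Prod.one_eq_mk, nhds_prod_eq, mem_prod_iff] at hW
  obtain ⟨V₁, hV₁, V₂, hV₂, hV⟩ := hW
  obtain ⟨r₁, hr₁, h₁⟩ := exists_small_subset hV₁
  have hV₂' : MulOpposite.op ⁻¹' V₂ ∈ 𝓝 (1 : Matrix (Fin n) (Fin n) F) :=
    MulOpposite.continuous_op.continuousAt.preimage_mem_nhds hV₂
  obtain ⟨r₂, hr₂, h₂⟩ := exists_small_subset hV₂'
  refine ⟨min c (min r₁ r₂), lt_min hc0 (lt_min hr₁ hr₂), min_le_left _ _, fun g hg => hWU ?_⟩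
  refine hV ⟨h₁ (Small.mono ((min_le_right _ _).trans (min_le_left _ _)) hg), ?_⟩
  exact h₂ (Small.mono ((min_le_right _ _).trans (min_le_right _ _))
    (small_inv (lt_min hc0 (lt_min hr₁ hr₂)) (min_le_left _ _) hc1 hℓ0 hℓ hg))

theorem tendsto_pow_congr {ℓ : ℕ} {r c : ℝ} (hr : 0 < r) (hrc : r ≤ c) (hc1 : c < 1)
    (hℓ0 : 0 < ℓ) (hℓ : ‖(ℓ : F)‖ ≤ c) {g : GL (Fin n) F}
    (hg : g ∈ congr (n := n) hr hrc hc1 hℓ0 hℓ) :
    Tendsto (fun m : ℕ => g ^ ℓ ^ m) atTop (𝓝 1) := by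
  rw [tendsto_def]
  intro U hU
  obtain ⟨r', hr', hrc', hU'⟩ := exists_congr_subset (hr.trans_le hrc) hc1 hℓ0 hℓ hU
  have h1 : Tendsto (fun m : ℕ => c ^ m * r) atTop (𝓝 0) := by
    have := (tendsto_pow_atTop_nhds_zero_of_lt_one (hr.le.trans hrc) hc1).mul_const r
    simpa using this
  filter_upwards [h1.eventually (gt_mem_nhds hr')] with m hm
  refine hU' ?_
  change Small r' (((g ^ ℓ ^ m : GL (Fin n) F) : Matrix (Fin n) (Fin n) F) - 1)
  rw [Units.val_pow_eq_pow_val]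
  exact (small_pow_prime_pow hr.le hrc hc1.le hℓ hg m).mono hm.le

/-- Closed subgroups of `GL_n(F)` have arbitrarily small compact open subgroups of pro-order prime to
`p`. -/
theorem exists_primeTo [ProperSpace F] {p ℓ : ℕ} (hp : p.Prime) (hℓ : ℓ.Prime) (hne : ℓ ≠ p)
    (hF : ‖(ℓ : F)‖ < 1) {G : Subgroup (GL (Fin n) F)} (hG : IsClosed (G : Set (GL (Fin n) F)))
    {U : Set G} (hU : U ∈ 𝓝 1) :
    ∃ K : Subgroup G, IsOpen (K : Set G) ∧ IsCompact (K : Set G) ∧ (K : Set G) ⊆ U ∧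
      PrimeTo p K := by
  set c : ℝ := max ‖(ℓ : F)‖ (1 / 2) with hc
  have hc1 : c < 1 := max_lt hF (by norm_num)
  have hc0 : 0 < c := lt_max_of_lt_right (by norm_num)
  have hℓc : ‖(ℓ : F)‖ ≤ c := le_max_left _ _
  rw [Topology.IsInducing.subtypeVal.nhds_eq_comap, mem_comap] at hU
  obtain ⟨W, hW, hWU⟩ := hU
  obtain ⟨r, hr, hrc, hW'⟩ := exists_congr_subset (n := n) hc0 hc1 hℓ.pos hℓc hW
  have hKc : IsCompact (((congr (n := n) hr hrc hc1 hℓ.pos hℓc).subgroupOf G : Subgroup G) : Set G) :=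
    hG.isClosedEmbedding_subtypeVal.isCompact_preimage
      (isCompact_congr hr hrc hc1 hℓ.pos hℓc)
  refine ⟨(congr (n := n) hr hrc hc1 hℓ.pos hℓc).subgroupOf G,
    (isOpen_congr hr hrc hc1 hℓ.pos hℓc).preimage continuous_subtype_val, hKc,
    fun g hg => hWU (hW' hg), primeTo_of_pow hp hℓ hne hKc fun g hg => ?_⟩
  rw [Topology.IsEmbedding.subtypeVal.tendsto_nhds_iff]
  exact tendsto_pow_congr hr hrc hc1 hℓ.pos hℓc hg

end matrix

end Pool.Agent.N829.TV
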