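import Mathlib
import Pool.Agent.N829.TV.Avg
import Pool.Agent.N829.TV.Defs

/-!
Admissibility of Tate cohomology, for a group with arbitrarily small compact open subgroups of
pro-order prime to `p`.
-/

set_option autoImplicit false
set_option linter.unusedSectionVars false

namespace Pool.Agent.N829.TV

open Finset Function

variable {G k V : Type*} [Group G] [Field k] [AddCommGroup V] [Module k V]
  [TopologicalSpace G] [IsTopologicalGroup G]

/-- the stabiliser -/
def stab (ρ : Representation k G V) (v : V) : Subgroup G where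
  carrier := {g | ρ g v = v}
  one_mem' := by
    change ρ 1 v = v
    rw [map_one, Module.End.one_apply]
  mul_mem' := fun {a b} ha hb => by
    change ρ (a * b) v = v
    rw [map_mul, Module.End.mul_apply, show ρ b v = v from hb, show ρ a v = v from ha]
  inv_mem' := fun {a} ha => by
    change ρ a⁻¹ v = v
    conv_lhs => rw [← show ρ a v = v from ha]
    rw [← Module.End.mul_apply, ← map_mul, inv_mul_cancel, map_one, Module.End.one_apply]

theorem smooth_iff {ρ : Representation k G V} :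
    Smooth ρ ↔ ∀ v, ∃ W : Subgroup G, IsOpen (W : Set G) ∧ ∀ g ∈ W, ρ g v = v := by
  refine ⟨fun h v => ⟨stab ρ v, h v, fun g hg => hg⟩, fun h v => ?_⟩
  obtain ⟨W, hWo, hW⟩ := h v
  exact Subgroup.isOpen_mono (H₁ := W) (H₂ := stab ρ v) hW hWo

theorem smooth_subquotient {H : Subgroup G} {ρ : Representation k G V} (hρ : Smooth ρ)
    {A B : Submodule k V} (hA : ∀ h, A ≤ A.comap ((ρ.comp H.subtype) h))
    (hB : ∀ h, B ≤ B.comap ((ρ.comp H.subtype) h)) :
    Smooth (subquotient (ρ.comp H.subtype) A B hA hB) := by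
  rw [smooth_iff]
  intro c
  obtain ⟨x, rfl⟩ := Submodule.Quotient.mk_surjective _ c
  refine ⟨(stab ρ (x : V)).subgroupOf H, (hρ (x : V)).preimage continuous_subtype_val, ?_⟩
  intro g hg
  change Submodule.Quotient.mk (Representation.subrepresentation (ρ.comp H.subtype) A hA g x) = _
  congr 1
  exact Subtype.ext hg

variable {p : ℕ} [hp : Fact p.Prime] [CharP k p]

/-- the general criterion -/
theorem finite_fixedBy_subquotient {σ : G →* G} {ρ : Representation k G V}
    (hG : ∀ U ∈ nhds (1 : G), ∃ K : Subgroup G, IsOpen (K : Set G) ∧ IsCompact (K : Set G) ∧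
      (K : Set G) ⊆ U ∧ PrimeTo p K) (hσ : Continuous σ) (hper : ∀ g, σ^[p] g = g)
    (hfin : ∀ K : Subgroup G, IsOpen (K : Set G) → IsCompact (K : Set G) →
      FiniteDimensional k (fixedBy ρ K))
    {A B : Submodule k V} (hA : ∀ h, A ≤ A.comap ((ρ.comp (fixedSubgroup σ).subtype) h))
    (hB : ∀ h, B ≤ B.comap ((ρ.comp (fixedSubgroup σ).subtype) h))
    (key : ∀ K : Subgroup G, IsOpen (K : Set G) → IsCompact (K : Set G) → PrimeTo p K →
      (∀ g ∈ K, σ g ∈ K) → ∀ x ∈ A, (∀ h ∈ K, σ h = h → ρ h x - x ∈ B) →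
        ∃ y ∈ A, y - x ∈ B ∧ y ∈ fixedBy ρ K)
    (K' : Subgroup (fixedSubgroup σ)) (hK' : IsOpen (K' : Set (fixedSubgroup σ))) :
    FiniteDimensional k (fixedBy (subquotient (ρ.comp (fixedSubgroup σ).subtype) A B hA hB) K') := by
  obtain ⟨U, hU, hUK⟩ := isOpen_induced_iff.1 hK'
  have h1U : U ∈ nhds (1 : G) := by
    refine hU.mem_nhds ?_
    have h1 : (1 : fixedSubgroup σ) ∈ Subtype.val ⁻¹' U := by
      rw [hUK]
      exact K'.one_mem
    exact h1
  obtain ⟨K₀, hK₀o, hK₀c, hK₀U, hK₀p⟩ := hG U h1U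
  set K : Subgroup G := core σ K₀ with hK
  have hKo : IsOpen (K : Set G) := isOpen_core hσ hp.out.pos hper hK₀o
  have hKc : IsCompact (K : Set G) :=
    hK₀c.of_isClosed_subset (Subgroup.isClosed_of_isOpen _ hKo) (core_le σ K₀)
  have hKp : PrimeTo p K := hK₀p.of_le (core_le σ K₀)
  have hKσ := map_mem_core σ K₀
  have hfd := hfin K hKo hKc
  let f : (A ⊓ fixedBy ρ K : Submodule k V) →ₗ[k] (A ⧸ B.comap A.subtype) :=
    (B.comap A.subtype).mkQ.comp (Submodule.inclusion inf_le_left)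
  have hfd' : FiniteDimensional k (A ⊓ fixedBy ρ K : Submodule k V) :=
    Submodule.finiteDimensional_inf_right A (fixedBy ρ K)
  have hle : fixedBy (subquotient (ρ.comp (fixedSubgroup σ).subtype) A B hA hB) K' ≤
      LinearMap.range f := by
    intro c hc
    obtain ⟨x, rfl⟩ := Submodule.Quotient.mk_surjective _ c
    obtain ⟨y, hyA, hyx, hyK⟩ := key K hKo hKc hKp hKσ x x.2 (fun h hhK hσh => by
      have h1 : (⟨h, hσh⟩ : fixedSubgroup σ) ∈ K' := by
        have h2 : (⟨h, hσh⟩ : fixedSubgroup σ) ∈ Subtype.val ⁻¹' U :=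
          hK₀U (core_le σ K₀ hhK)
        rwa [hUK] at h2
      have h3 := hc _ h1
      change Submodule.Quotient.mk (Representation.subrepresentation
        (ρ.comp (fixedSubgroup σ).subtype) A hA ⟨h, hσh⟩ x) = Submodule.Quotient.mk x at h3
      rw [Submodule.Quotient.eq] at h3
      exact h3)
    refine ⟨⟨y, hyA, hyK⟩, ?_⟩
    change Submodule.Quotient.mk _ = Submodule.Quotient.mk x
    rw [Submodule.Quotient.eq]
    exact hyx
  exact Submodule.finiteDimensional_of_le hle

section key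

variable [T2Space G] {σ : G →* G} {ρ : Representation k G V} {S : Module.End k V}

theorem IsExtension.pow_apply' (h : IsExtension p σ ρ S) (g : G) (n : ℕ) (v : V) :
    (S ^ n) (ρ g v) = ρ (σ^[n] g) ((S ^ n) v) := by
  induction n with
  | zero => rfl
  | succ n ih =>
    rw [pow_succ', Module.End.mul_apply, Module.End.mul_apply, ih, h.apply_apply,
      iterate_succ_apply']

theorem IsExtension.fixed (h : IsExtension p σ ρ S) (hper : ∀ g, σ^[p] g = g) {L : Subgroup G}
    (hL : ∀ g ∈ L, σ g ∈ L) {v : V} (hv : ∀ g ∈ L, ρ g v = v) : ∀ g ∈ L, ρ g (S v) = S v := by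
  intro g hg
  have h1 : σ (σ^[p - 1] g) = g := by
    rw [← iterate_succ_apply' (f := σ), Nat.succ_eq_add_one, Nat.sub_add_cancel hp.out.one_le,
      hper]
  have h2 : ∀ n, σ^[n] g ∈ L := by
    intro n
    induction n with
    | zero => exact hg
    | succ n ih => rw [iterate_succ_apply']; exact hL _ ih
  conv_lhs => rw [← h1]
  rw [← h.apply_apply, hv _ (h2 _)]

theorem IsExtension.fixed_pow (h : IsExtension p σ ρ S) (hper : ∀ g, σ^[p] g = g) {L : Subgroup G}
    (hL : ∀ g ∈ L, σ g ∈ L) {v : V} (hv : ∀ g ∈ L, ρ g v = v) (n : ℕ) :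
    ∀ g ∈ L, ρ g ((S ^ n) v) = (S ^ n) v := by
  induction n with
  | zero => exact hv
  | succ n ih =>
    rw [pow_succ', Module.End.mul_apply]
    exact h.fixed hper hL ih

theorem IsExtension.pow_av (h : IsExtension p σ ρ S) (hper : ∀ g, σ^[p] g = g) {L : Subgroup G}
    (hL : ∀ g ∈ L, σ g ∈ L) {v : V} (hv : ∀ g ∈ L, ρ g v = v) {s : Finset (G ⧸ L)}
    (hs : ∀ c ∈ s, shift σ L hL c ∈ s) (n : ℕ) : (S ^ n) (av ρ s v) = av ρ s ((S ^ n) v) := by
  induction n with
  | zero => rfl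
  | succ n ih =>
    rw [pow_succ', Module.End.mul_apply, Module.End.mul_apply, ih]
    exact S_av hL hper hp.out.pos h.apply_apply hs (h.fixed hper hL (h.fixed_pow hper hL hv n))

theorem key0 (h : IsExtension p σ ρ S) (hρ : Smooth ρ)
    (hG : ∀ U ∈ nhds (1 : G), ∃ K : Subgroup G, IsOpen (K : Set G) ∧ IsCompact (K : Set G) ∧
      (K : Set G) ⊆ U ∧ PrimeTo p K) (hσ : Continuous σ) (hper : ∀ g, σ^[p] g = g)
    {K : Subgroup G} (hKo : IsOpen (K : Set G)) (hKc : IsCompact (K : Set G)) (hK : PrimeTo p K)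
    (hKσ : ∀ g ∈ K, σ g ∈ K) {x : V} (hx : x ∈ LinearMap.ker (1 - S))
    (hfix : ∀ g ∈ K, σ g = g → ρ g x - x ∈ LinearMap.range (normOp p S)) :
    ∃ y ∈ LinearMap.ker (1 - S), y - x ∈ LinearMap.range (normOp p S) ∧ y ∈ fixedBy ρ K := by
  have hSx : S x = x := by
    rw [LinearMap.mem_ker, LinearMap.sub_apply, Module.End.one_apply, sub_eq_zero] at hx
    exact hx.symm
  have hpow : ∀ n, (S ^ n) x = x := by
    intro n
    induction n with
    | zero => rfl
    | succ n ih => rw [pow_succ', Module.End.mul_apply, ih, hSx]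
  obtain ⟨L, s, c, hL, hLx, hs, hyx, hyK⟩ := exists_average hσ hper
    (fun U hU => by
      obtain ⟨W, hW, _, hWU, _⟩ := hG U hU
      exact ⟨W, hW, hWU⟩) hKc hKo hK hKσ (ρ := ρ) (x := x) (smooth_iff.1 hρ x)
    (B := LinearMap.range (normOp p S)) (fun g => ⟨ρ g x, by
      rw [normOp, LinearMap.sum_apply]
      refine sum_congr rfl fun n _ => ?_
      rw [h.pow_apply', hpow]⟩) hfix
  refine ⟨c • av ρ s x, ?_, hyx, fun g hg => hyK g hg⟩
  rw [LinearMap.mem_ker, map_smul, LinearMap.sub_apply, Module.End.one_apply]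
  have h1 := h.pow_av hper hL hLx hs 1
  rw [pow_one, hSx] at h1
  rw [h1, sub_self, smul_zero]

theorem key1 (h : IsExtension p σ ρ S) (hρ : Smooth ρ)
    (hG : ∀ U ∈ nhds (1 : G), ∃ K : Subgroup G, IsOpen (K : Set G) ∧ IsCompact (K : Set G) ∧
      (K : Set G) ⊆ U ∧ PrimeTo p K) (hσ : Continuous σ) (hper : ∀ g, σ^[p] g = g)
    {K : Subgroup G} (hKo : IsOpen (K : Set G)) (hKc : IsCompact (K : Set G)) (hK : PrimeTo p K)
    (hKσ : ∀ g ∈ K, σ g ∈ K) {x : V} (hx : x ∈ LinearMap.ker (normOp p S))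
    (hfix : ∀ g ∈ K, σ g = g → ρ g x - x ∈ LinearMap.range (1 - S)) :
    ∃ y ∈ LinearMap.ker (normOp p S), y - x ∈ LinearMap.range (1 - S) ∧ y ∈ fixedBy ρ K := by
  have hNx : ∑ i ∈ range p, (S ^ i) x = 0 := by
    rw [LinearMap.mem_ker, normOp, LinearMap.sum_apply] at hx
    exact hx
  have hSn : ∀ (n : ℕ) (w : V), (S ^ n) w - w ∈ LinearMap.range (1 - S) := by
    intro n w
    induction n with
    | zero => simp
    | succ n ih =>
      have h1 : (S ^ (n + 1)) w - w = ((S ^ n) w - w) - (1 - S) ((S ^ n) w) := by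
        rw [pow_succ', Module.End.mul_apply, LinearMap.sub_apply, Module.End.one_apply]
        abel
      rw [h1]
      exact sub_mem ih ⟨_, rfl⟩
  have hNx' : ∑ i ∈ range p, (S ^ (p - i)) x = 0 := by
    have h1 : ∑ i ∈ range p, (S ^ (p - i)) x = S (∑ i ∈ range p, (S ^ i) x) := by
      rw [map_sum, ← sum_range_reflect]
      refine sum_congr rfl fun i hi => ?_
      have hi' := mem_range.1 hi
      rw [← Module.End.mul_apply, ← pow_succ']
      congr 2
      omega
    rw [h1, hNx, map_zero]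
  obtain ⟨L, s, c, hL, hLx, hs, hyx, hyK⟩ := exists_average hσ hper
    (fun U hU => by
      obtain ⟨W, hW, _, hWU, _⟩ := hG U hU
      exact ⟨W, hW, hWU⟩) hKc hKo hK hKσ (ρ := ρ) (x := x) (smooth_iff.1 hρ x)
    (B := LinearMap.range (1 - S)) (fun g => by
      have h1 : ∀ i ∈ range p, ρ (σ^[i] g) x = (S ^ i) (ρ g ((S ^ (p - i)) x)) := by
        intro i hi
        rw [h.pow_apply', ← Module.End.mul_apply (S ^ i), ← pow_add,
          Nat.add_sub_cancel' (mem_range.1 hi).le, h.pow_eq_one, Module.End.one_apply]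
      have h2 : ∑ i ∈ range p, ρ (σ^[i] g) x = ∑ i ∈ range p,
          ((S ^ i) (ρ g ((S ^ (p - i)) x)) - ρ g ((S ^ (p - i)) x)) := by
        rw [sum_sub_distrib, ← map_sum (ρ g), hNx', map_zero, sub_zero]
        exact sum_congr rfl h1
      rw [h2]
      exact sum_mem fun i _ => hSn i _) hfix
  refine ⟨c • av ρ s x, ?_, hyx, fun g hg => hyK g hg⟩
  rw [LinearMap.mem_ker, map_smul, normOp, LinearMap.sum_apply]
  have h1 : ∑ i ∈ range p, (S ^ i) (av ρ s x) = av ρ s (∑ i ∈ range p, (S ^ i) x) := by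
    rw [map_sum]
    exact sum_congr rfl fun n _ => h.pow_av hper hL hLx hs n
  rw [h1, hNx, map_zero, smul_zero]

/-- **Admissibility of Tate cohomology**, for a Hausdorff group with arbitrarily small compact open
subgroups of pro-order prime to `p`. -/
theorem admissible_T (h : IsExtension p σ ρ S) (hρ : Admissible ρ)
    (hG : ∀ U ∈ nhds (1 : G), ∃ K : Subgroup G, IsOpen (K : Set G) ∧ IsCompact (K : Set G) ∧
      (K : Set G) ⊆ U ∧ PrimeTo p K) (hσ : Continuous σ) (hper : ∀ g, σ^[p] g = g) :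
    Admissible (T0 h) ∧ Admissible (T1 h) := by
  refine ⟨⟨smooth_subquotient hρ.1 _ _, fun K' hK' _ => ?_⟩,
    ⟨smooth_subquotient hρ.1 _ _, fun K' hK' _ => ?_⟩⟩
  · exact finite_fixedBy_subquotient hG hσ hper hρ.2 _ _
      (fun K hKo hKc hKp hKσ x hx hfix => key0 h hρ.1 hG hσ hper hKo hKc hKp hKσ hx hfix) K' hK'
  · exact finite_fixedBy_subquotient hG hσ hper hρ.2 _ _
      (fun K hKo hKc hKp hKσ x hx hfix => key1 h hρ.1 hG hσ hper hKo hKc hKp hKσ hx hfix) K' hK'

end key

end Pool.Agent.N829.TV
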